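import Pool.Agent.Y211.PY.Stm

/-!
# The local lattice lemma over a two-dimensional regular local ring
-/

set_option autoImplicit false
set_option linter.unusedSectionVars false

open scoped Matrix Pointwise
open IsLocalRing

universe u

namespace Pool.Agent.Y779.PY

open Pool.Agent.Y211.PY

section Basic

variable {A F : Type u} [CommRing A] [IsDomain A] [Field F] [Algebra A F] [IsFractionRing A F]

theorem mem_lat {k : ℕ} {x : Fin k → F} :
    x ∈ lat A F k ↔ ∀ i, x i ∈ (⊥ : Subalgebra A F) := Iff.rfl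

theorem mem_dual {k : ℕ} {M : Submodule A (Fin k → F)} {x : Fin k → F} :
    x ∈ dual M ↔ ∀ y ∈ M, x ⬝ᵥ y ∈ (⊥ : Subalgebra A F) := Iff.rfl

theorem dual_anti {k : ℕ} {M M' : Submodule A (Fin k → F)} (h : M ≤ M') : dual M' ≤ dual M :=
  fun _ hx y hy => hx y (h hy)

theorem lat_le_dual (k : ℕ) : lat A F k ≤ dual (lat A F k) := by
  intro x hx y hy
  exact sum_mem fun i _ => mul_mem (hx i) (hy i)

theorem single_mem_lat {k : ℕ} (i : Fin k) : (Pi.single i (1 : F)) ∈ lat A F k := by
  intro j
  by_cases h : j = i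
  · subst h
    rw [Pi.single_eq_same]
    exact one_mem _
  · rw [Pi.single_eq_of_ne h]
    exact zero_mem _

theorem dual_lat_le (k : ℕ) : dual (lat A F k) ≤ lat A F k := by
  intro x hx i
  have := hx (Pi.single i 1) (single_mem_lat i)
  rwa [dotProduct_single, mul_one] at this

theorem lat_fg (k : ℕ) [IsNoetherianRing A] : IsNoetherian A (lat A F k) := by
  have h : lat A F k = LinearMap.range ((Algebra.linearMap A F).compLeft (Fin k)) := by
    ext x
    constructor
    · intro hx
      choose c hc using fun i => Algebra.mem_bot.1 (hx i)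
      exact ⟨c, funext fun i => hc i⟩
    · rintro ⟨c, rfl⟩ i
      exact Algebra.mem_bot.2 ⟨c i, rfl⟩
  rw [h]
  infer_instance

theorem bdd_fg [IsNoetherianRing A] {k : ℕ} {M : Submodule A (Fin k → F)} (hM : Bdd M) :
    M.FG := by
  obtain ⟨d, hd, h⟩ := hM
  have hinj : Function.Injective (LinearMap.lsmul A (Fin k → F) d) := by
    intro x y hxy
    simp only [LinearMap.lsmul_apply] at hxy
    funext i
    have := congrFun hxy i
    simp only [Pi.smul_apply, Algebra.smul_def] at this
    exact mul_left_cancel₀ ((map_ne_zero_iff _ (IsFractionRing.injective A F)).2 hd) this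
  apply Submodule.fg_of_fg_map_injective (LinearMap.lsmul A (Fin k → F) d) hinj
  apply (isNoetherian_submodule.1 (lat_fg (A := A) (F := F) k))
  rintro _ ⟨x, hx, rfl⟩
  exact h x hx

/-- the bilinear form on the lattice `M + L` -/
theorem eq_dual {k : ℕ} {M : Submodule A (Fin k → F)} (hM : dual M = M)
    (h : dual (M ⊓ lat A F k) ≤ M ⊔ lat A F k) : dual (M ⊓ lat A F k) = M ⊔ lat A F k := by
  apply le_antisymm h
  apply sup_le
  · conv_lhs => rw [← hM]
    exact dual_anti inf_le_left
  · exact (lat_le_dual k).trans (dual_anti inf_le_right)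

end Basic

section Quot

variable {A : Type u} [CommRing A] [IsDomain A] [IsLocalRing A] [IsNoetherianRing A]

/-- the quotient by `s` is a principal ideal domain -/
theorem quot_pid {s t : A} (hm : maximalIdeal A = Ideal.span {s, t})
    (hs : (Ideal.span {s}).IsPrime) : IsPrincipalIdealRing (A ⧸ Ideal.span {s}) := by
  have : IsDomain (A ⧸ Ideal.span {s}) := (Ideal.Quotient.isDomain_iff_prime _).2 hs
  have : Nontrivial (A ⧸ Ideal.span {s}) := inferInstance
  have hl : IsLocalRing (A ⧸ Ideal.span {s}) :=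
    IsLocalRing.of_surjective' (Ideal.Quotient.mk (Ideal.span {s})) Ideal.Quotient.mk_surjective
  have hp : (maximalIdeal (A ⧸ Ideal.span {s})).IsPrincipal := by
    have h1 : maximalIdeal (A ⧸ Ideal.span {s}) =
        (maximalIdeal A).map (Ideal.Quotient.mk (Ideal.span {s})) := by
      have h2 : (maximalIdeal (A ⧸ Ideal.span {s})).comap (Ideal.Quotient.mk (Ideal.span {s})) =
          maximalIdeal A :=
        IsLocalRing.eq_maximalIdeal
          (Ideal.comap_isMaximal_of_surjective _ Ideal.Quotient.mk_surjective)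
      rw [← h2, Ideal.map_comap_of_surjective _ Ideal.Quotient.mk_surjective]
    refine ⟨⟨Ideal.Quotient.mk _ t, ?_⟩⟩
    rw [h1, hm, Ideal.map_span, Set.image_pair]
    have : (Ideal.Quotient.mk (Ideal.span {s})) s = 0 := by
      rw [Ideal.Quotient.eq_zero_iff_mem]
      exact Ideal.mem_span_singleton_self s
    rw [this]
    show Ideal.span _ = Ideal.span _
    rw [Ideal.span_insert]
    simp
  exact ((tfae_of_isNoetherianRing_of_isLocalRing_of_isDomain (A ⧸ Ideal.span {s})).out 0 4).2 hp

end Quot

section Free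

variable {A F : Type u} [CommRing A] [IsDomain A] [IsLocalRing A] [IsNoetherianRing A] [Field F]
  [Algebra A F] [IsFractionRing A F]

theorem torsion_free {k : ℕ} (P : Submodule A (Fin k → F)) {s : A}
    (hs : (Ideal.span {s}).IsPrime) (hs0 : s ≠ 0) :
    Module.IsTorsionFree (A ⧸ Ideal.span {s}) (QuotSMulTop s (dual P)) := by
  have : IsDomain (A ⧸ Ideal.span {s}) := (Ideal.Quotient.isDomain_iff_prime _).2 hs
  have hsp : Prime s := (Ideal.span_singleton_prime hs0).1 hs
  have hsF : algebraMap A F s ≠ 0 := (map_ne_zero_iff _ (IsFractionRing.injective A F)).2 hs0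
  apply Module.IsTorsionFree.of_smul_eq_zero
  intro r m
  obtain ⟨a, rfl⟩ := Ideal.Quotient.mk_surjective r
  obtain ⟨x, rfl⟩ := Submodule.mkQ_surjective _ m
  intro h
  by_cases ha : a ∈ Ideal.span {s}
  · left
    exact Ideal.Quotient.eq_zero_iff_mem.2 ha
  · right
    have h1 : (Submodule.mkQ (s • (⊤ : Submodule A (dual P)))) (a • x) = 0 := by
      rw [map_smul]
      exact h
    rw [Submodule.mkQ_apply, Submodule.Quotient.mk_eq_zero,
      Submodule.mem_smul_pointwise_iff_exists] at h1
    obtain ⟨y, -, hy⟩ := h1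
    rw [Submodule.mkQ_apply, Submodule.Quotient.mk_eq_zero,
      Submodule.mem_smul_pointwise_iff_exists]
    have hz : (algebraMap A F s)⁻¹ • (x : Fin k → F) ∈ dual P := by
      intro p hp
      obtain ⟨α, hα⟩ := Algebra.mem_bot.1 (x.2 p hp)
      obtain ⟨β, hβ⟩ := Algebra.mem_bot.1 (y.2 p hp)
      have hy' : s • (y : Fin k → F) = a • (x : Fin k → F) := by
        have := congrArg Subtype.val hy
        simpa using this
      have h2 : a * α = s * β := by
        apply IsFractionRing.injective A F
        rw [map_mul, map_mul, hα, hβ]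
        have := congrArg (fun v => v ⬝ᵥ p) hy'
        simp only [smul_dotProduct] at this
        rw [Algebra.smul_def, Algebra.smul_def] at this
        exact this.symm
      have h3 : s ∣ a * α := ⟨β, h2⟩
      have h4 : s ∣ α := by
        rcases hsp.dvd_or_dvd h3 with h5 | h5
        · exact absurd (Ideal.mem_span_singleton.2 h5) ha
        · exact h5
      obtain ⟨γ, rfl⟩ := h4
      rw [smul_dotProduct, ← hα, smul_eq_mul, map_mul, inv_mul_cancel_left₀ hsF]
      exact Algebra.mem_bot.2 ⟨γ, rfl⟩
    refine ⟨⟨_, hz⟩, Submodule.mem_top, ?_⟩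
    apply Subtype.ext
    show s • ((algebraMap A F s)⁻¹ • (x : Fin k → F)) = x
    funext i
    simp only [Pi.smul_apply, Algebra.smul_def]
    exact mul_inv_cancel_left₀ hsF _

theorem free_dual {k : ℕ} (P : Submodule A (Fin k → F)) {s t : A}
    (hm : maximalIdeal A = Ideal.span {s, t}) (hs : (Ideal.span {s}).IsPrime) (hs0 : s ≠ 0)
    (hfin : Module.Finite A (dual P)) : Module.Free A (dual P) := by
  have : IsDomain (A ⧸ Ideal.span {s}) := (Ideal.Quotient.isDomain_iff_prime _).2 hs
  have := quot_pid hm hs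
  have := torsion_free P hs hs0
  have hfp : Module.FinitePresentation A (dual P) := Module.finitePresentation_of_finite A _
  have hsmem : s ∈ (⊥ : Ideal A).jacobson := by
    rw [IsLocalRing.jacobson_eq_maximalIdeal ⊥ bot_ne_top, hm]
    exact Ideal.subset_span (by simp)
  have hreg : IsSMulRegular (dual P) s := by
    intro x y hxy
    apply Subtype.ext
    have h1 : s • (x : Fin k → F) = s • (y : Fin k → F) := by
      simpa using congrArg Subtype.val hxy
    funext i
    have h2 := congrFun h1 i
    simp only [Pi.smul_apply, Algebra.smul_def] at h2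
    exact mul_left_cancel₀ ((map_ne_zero_iff _ (IsFractionRing.injective A F)).2 hs0) h2
  rw [← Module.free_quotSMulTop_iff_free A (dual P) hsmem hreg]
  have hf : Module.Finite (A ⧸ Ideal.span {s}) (QuotSMulTop s (dual P)) :=
    Module.Finite.of_restrictScalars_finite A _ _
  exact Module.free_of_finite_type_torsion_free'

end Free

section Main

variable {A F : Type u} [CommRing A] [IsDomain A] [IsLocalRing A] [IsNoetherianRing A] [Field F]
  [Algebra A F] [IsFractionRing A F]

/-- a nonzero functional modulo the maximal ideal, zero on a proper submodule -/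
theorem exists_functional {N : Type u} [AddCommGroup N] [Module A N] [Module.Finite A N]
    (M : Submodule A N) (hM : M ≠ ⊤) :
    ∃ f : N →ₗ[A] A ⧸ maximalIdeal A, f ≠ 0 ∧ ∀ x ∈ M, f x = 0 := by
  obtain ⟨M', hM', hle⟩ := (eq_top_or_exists_le_coatom M).resolve_left hM
  have hsimple : IsSimpleModule A (N ⧸ M') := isSimpleModule_iff_isCoatom.2 hM'
  obtain ⟨I, hI, ⟨e⟩⟩ := isSimpleModule_iff_quot_maximal.1 hsimple
  have hI' : I = maximalIdeal A := IsLocalRing.eq_maximalIdeal hI
  subst hI'
  refine ⟨e.toLinearMap ∘ₗ M'.mkQ, ?_, ?_⟩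
  · intro h
    apply hM'.1
    rw [eq_top_iff]
    intro x _
    have : (e.toLinearMap ∘ₗ M'.mkQ) x = 0 := by rw [h]; rfl
    simp only [LinearMap.comp_apply, LinearEquiv.coe_coe, LinearEquiv.map_eq_zero_iff,
      Submodule.mkQ_apply, Submodule.Quotient.mk_eq_zero] at this
    exact this
  · intro x hx
    simp only [LinearMap.comp_apply, LinearEquiv.coe_coe, LinearEquiv.map_eq_zero_iff,
      Submodule.mkQ_apply, Submodule.Quotient.mk_eq_zero]
    exact hle hx

theorem local_lemma {s t : A} (hm : maximalIdeal A = Ideal.span {s, t})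
    (hs : (Ideal.span {s}).IsPrime) (hs0 : s ≠ 0)
    (hR : ∀ (k : ℕ) (x : Fin k → A), ∑ i, x i ^ 2 ∈ maximalIdeal A →
      ∀ i, x i ∈ maximalIdeal A)
    (k : ℕ) (M : Submodule A (Fin k → F)) (hB : Bdd M) (hd : dual M = M)
    (h : dual (M ⊓ lat A F k) ≤ M ⊔ lat A F k) : M ≤ lat A F k := by
  have hN := eq_dual hd h
  have hLfg : (lat A F k).FG := by
    have := lat_fg (A := A) (F := F) k
    exact Module.Finite.iff_fg.1 inferInstance
  have hfin : Module.Finite A (dual (M ⊓ lat A F k)) := by
    rw [hN]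
    exact Module.Finite.iff_fg.2 ((bdd_fg hB).sup hLfg)
  have hfree := free_dual (M ⊓ lat A F k) hm hs hs0 hfin
  -- it suffices that `L ≤ M`
  suffices hLM : lat A F k ≤ M by
    calc M = dual M := hd.symm
      _ ≤ dual (lat A F k) := dual_anti hLM
      _ ≤ lat A F k := dual_lat_le k
  by_contra hLM
  set N := dual (M ⊓ lat A F k) with hNdef
  have hMN : M ≤ N := by rw [hN]; exact le_sup_left
  have hLN : lat A F k ≤ N := by rw [hN]; exact le_sup_right
  obtain ⟨f, hf0, hf⟩ := exists_functional (M.submoduleOf N) (by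
    intro htop
    apply hLM
    intro x hx
    have : (⟨x, hLN hx⟩ : N) ∈ M.submoduleOf N := by rw [htop]; exact Submodule.mem_top
    exact this)
  obtain ⟨g, hg⟩ := Module.projective_lifting_property
    ((maximalIdeal A).mkQ) f (Submodule.mkQ_surjective _)
  have hgf : ∀ x : N, f x = 0 ↔ g x ∈ maximalIdeal A := by
    intro x
    rw [← hg, LinearMap.comp_apply, Submodule.mkQ_apply, Submodule.Quotient.mk_eq_zero]
  let e : Fin k → N := fun i => ⟨Pi.single i 1, hLN (single_mem_lat i)⟩
  let p : Fin k → F := fun i => algebraMap A F (g (e i))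
  -- an element of `L` is a combination of the `e i`
  have hcomb : ∀ (x : N) (c : Fin k → A), (∀ i, (x : Fin k → F) i = algebraMap A F (c i)) →
      x = ∑ i, c i • e i := by
    intro x c hc
    apply Subtype.ext
    funext j
    rw [hc j]
    simp only [AddSubmonoidClass.coe_finsetSum, SetLike.val_smul, Finset.sum_apply, Pi.smul_apply]
    rw [Finset.sum_eq_single j]
    · simp [e, Algebra.smul_def]
    · intro i _ hij
      simp only [e]
      rw [Pi.single_eq_of_ne hij.symm, smul_zero]
    · simp
  obtain ⟨d, hd0, hdN⟩ : ∃ d : A, d ≠ 0 ∧ ∀ x ∈ N, d • x ∈ lat A F k := by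
    obtain ⟨d, hd0, hdM⟩ := hB
    refine ⟨d, hd0, ?_⟩
    intro x hx
    rw [hN] at hx
    obtain ⟨y, hy, z, hz, rfl⟩ := Submodule.mem_sup.1 hx
    rw [smul_add]
    exact add_mem (hdM y hy) (Submodule.smul_mem _ _ hz)
  have hdF : algebraMap A F d ≠ 0 := (map_ne_zero_iff _ (IsFractionRing.injective A F)).2 hd0
  have hgB : ∀ x : N, algebraMap A F (g x) = p ⬝ᵥ (x : Fin k → F) := by
    intro x
    choose c hc using fun i => Algebra.mem_bot.1 (hdN x.1 x.2 i)
    have h1 : d • x = ∑ i, c i • e i := hcomb (d • x) c (fun i => by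
      rw [hc i]; rfl)
    have h2 : d * g x = ∑ i, c i * g (e i) := by
      have := congrArg g h1
      rw [map_smul, map_sum] at this
      simpa using this
    apply mul_left_cancel₀ hdF
    rw [← map_mul, h2, map_sum]
    simp only [dotProduct, Finset.mul_sum]
    apply Finset.sum_congr rfl
    intro i _
    rw [map_mul, hc i]
    simp only [Pi.smul_apply, Algebra.smul_def, p]
    ring
  have hpM : p ∈ M := by
    rw [← hd]
    intro y hy
    rw [← hgB ⟨y, hMN hy⟩]
    exact Algebra.mem_bot.2 ⟨_, rfl⟩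
  have hgp : g ⟨p, hMN hpM⟩ = ∑ i, g (e i) ^ 2 := by
    apply IsFractionRing.injective A F
    rw [hgB, map_sum]
    simp only [dotProduct, p]
    apply Finset.sum_congr rfl
    intro i _
    rw [map_pow]
    ring
  have h0 : g ⟨p, hMN hpM⟩ ∈ maximalIdeal A := (hgf _).1 (hf _ hpM)
  rw [hgp] at h0
  have hge := hR k (fun i => g (e i)) h0
  apply hf0
  ext x
  have hx : (x : Fin k → F) ∈ M ⊔ lat A F k := by rw [← hN]; exact x.2
  obtain ⟨y, hy, z, hz, hyz⟩ := Submodule.mem_sup.1 hx
  have hxs : x = ⟨y, hMN hy⟩ + ⟨z, hLN hz⟩ := Subtype.ext hyz.symm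
  rw [hxs, map_add, hf ⟨y, hMN hy⟩ hy, zero_add, LinearMap.zero_apply]
  choose c hc using fun i => Algebra.mem_bot.1 (hz i)
  rw [hcomb ⟨z, hLN hz⟩ c (fun i => (hc i).symm), map_sum]
  apply Finset.sum_eq_zero
  intro i _
  rw [map_smul, (hgf (e i)).2 (hge i), smul_zero]

end Main

theorem t (h : S_LOC.{u}) : S_T0L.{u} := by
  intro A F _ _ _ _ _ _ hdim hR k M hB hd hh
  obtain ⟨s, t, hm, hs, hs0, -⟩ := h A hdim
  exact local_lemma hm hs hs0 hR k M hB hd hh

end Pool.Agent.Y779.PY
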